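import Pool.Agent.H787R2.StrongMB4

set_option autoImplicit false

namespace Pool.Agent.Results.MP_0543b0_an.ClosedPartialSpans

open Topology

/-- Let `E` be an infinite-dimensional normed space over `𝕜 = ℝ` or `ℂ` (in particular, a Banach
space) whose dual is norm-separable. There is a biorthogonal system `(x n, f n)` with
`[x n] = E`, `[f n] = E*` such that for every strictly increasing sequence `n` of indices the
norm-closed linear span of the functionals `f (n k)` is weak*-closed; moreover this closed span is
the annihilator of the remaining vectors `x j`, `j ∉ {n k}`. -/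
theorem result (𝕜 : Type*) [RCLike 𝕜] (E : Type*) [NormedAddCommGroup E] [NormedSpace 𝕜 E]
    (hE : ¬ FiniteDimensional 𝕜 E) [TopologicalSpace.SeparableSpace (StrongDual 𝕜 E)] :
    ∃ (x : ℕ → E) (f : ℕ → StrongDual 𝕜 E),
      (∀ i j, f i (x j) = if i = j then 1 else 0) ∧
      closure (Submodule.span 𝕜 (Set.range x) : Set E) = Set.univ ∧
      closure (Submodule.span 𝕜 (Set.range f) : Set (StrongDual 𝕜 E)) = Set.univ ∧
      ∀ n : ℕ → ℕ, StrictMono n →
        IsClosed (X := WeakDual 𝕜 E) (StrongDual.toWeakDual ''
          closure (Submodule.span 𝕜 (Set.range fun k => f (n k)) : Set (StrongDual 𝕜 E))) ∧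
        closure (Submodule.span 𝕜 (Set.range fun k => f (n k)) : Set (StrongDual 𝕜 E)) =
          {h | ∀ j, j ∉ Set.range n → h (x j) = 0} := by
  obtain ⟨x, f, hbi, hx, hf, hM⟩ := Pool.Agent.H787R2.StrongMB.main (𝕜 := 𝕜) hE
  refine ⟨x, f, hbi, ?_, ?_, ?_⟩
  · rw [← Submodule.topologicalClosure_coe, hx, Submodule.top_coe]
  · rw [← Submodule.topologicalClosure_coe, hf, Submodule.top_coe]
  · intro n _
    have h1 : (Set.range fun k => f (n k)) = f '' Set.range n := by
      rw [← Set.range_comp]; rfl
    have h2 : closure (Submodule.span 𝕜 (Set.range fun k => f (n k)) : Set (StrongDual 𝕜 E)) =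
        {h | ∀ j, j ∉ Set.range n → h (x j) = 0} := by
      rw [h1]
      ext h
      rw [← Submodule.topologicalClosure_coe]
      exact hM (Set.range n) h
    refine ⟨?_, h2⟩
    rw [h2]
    have h3 : StrongDual.toWeakDual '' {h : StrongDual 𝕜 E | ∀ j, j ∉ Set.range n → h (x j) = 0} =
        ⋂ j ∈ (Set.range n)ᶜ, {h : WeakDual 𝕜 E | h (x j) = 0} := by
      ext h
      simp only [Set.mem_image, Set.mem_iInter, Set.mem_compl_iff]
      constructor
      · rintro ⟨g, hg, rfl⟩ j hj
        exact hg j hj
      · intro hh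
        exact ⟨WeakDual.toStrongDual h, fun j hj => hh j hj, by simp⟩
    rw [h3]
    refine isClosed_biInter fun j _ => ?_
    exact isClosed_eq (WeakDual.eval_continuous (x j)) continuous_const

end Pool.Agent.Results.MP_0543b0_an.ClosedPartialSpans
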